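import Pool.Agent.H17.TV.WidthDefs

/-!
# Strong Vaught dichotomy for the clique-guarded negation fragment : definitions
-/

set_option autoImplicit false

namespace Pool.H17.TG

open Pool.H17.TV

/-- `φ ∧ χ` -/
def and2 {a : ℕ → ℕ} (φ χ : Fml a) : Fml a := .conj (fun k => if k = 0 then φ else χ)

/-- In every model of the formula (under every assignment) the values of the variables `i` and `j` are
equal or occur together in a true atom: `i` and `j` occur together in an atom which is a conjunct of
the formula, possibly inside existential quantifiers. -/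
def PairGuard {a : ℕ → ℕ} : Fml a → ℕ → ℕ → Prop
  | .rel _ t, i, j => i ∈ Set.range t ∧ j ∈ Set.range t
  | .eq k l, i, j => (i = k ∨ i = l) ∧ (j = k ∨ j = l)
  | .neg _, _, _ => False
  | .conj φ, i, j => ∃ k, PairGuard (φ k) i j
  | .ex l φ, i, j => i ≠ l ∧ j ≠ l ∧ PairGuard φ i j

/-- The clique-guarded negation fragment of `L_{ω₁ω}`: atoms and equalities, countable conjunctions
and disjunctions, existential quantification, and negation of formulas which have at most one free
variable or whose free variables are pairwise guarded. -/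
inductive GN {a : ℕ → ℕ} : Fml a → Prop
  | rel (n : ℕ) (t : Fin (a n) → ℕ) : GN (.rel n t)
  | eq (i j : ℕ) : GN (.eq i j)
  | conj (φ : ℕ → Fml a) : (∀ k, GN (φ k)) → GN (.conj φ)
  | disj (φ : ℕ → Fml a) : (∀ k, GN (φ k)) → GN (.neg (.conj (fun k => .neg (φ k))))
  | ex (i : ℕ) (φ : Fml a) : GN φ → GN (.ex i φ)
  | neg (φ : Fml a) : (fv φ).encard ≤ 1 → GN φ → GN (.neg φ)
  | gneg (α φ : Fml a) : (∀ i ∈ fv φ, ∀ j ∈ fv φ, i ≠ j → PairGuard α i j) → GN α → GN φ →
      GN (and2 α (.neg φ))

/-- structures on an arbitrary set -/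
abbrev StrOn (a : ℕ → ℕ) (κ : Type) : Type := ∀ n : ℕ, (Fin (a n) → κ) → Bool

open Classical in
/-- The pullback of `K` along `π`: every element is replaced by pairwise unrelated copies. -/
noncomputable def blow {a : ℕ → ℕ} {κ : Type} (K : StrOn a κ) (π : ℕ → κ) : Str a := fun n t =>
  decide (K n (fun i => π (t i)) = true ∧ ∀ i j, π (t i) = π (t j) → t i = t j)

/-- `B` does not change when copies are added or removed. -/
def BlowInv {a : ℕ → ℕ} (B : Set (Str a)) : Prop :=
  ∀ (κ : Type) (_ : Countable κ) (K : StrOn a κ) (π ρ : ℕ → κ), Function.Surjective π →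
    Function.Surjective ρ → blow K π ∈ B → blow K ρ ∈ B

open Classical in
/-- `u` and `w` do not occur together in a true tuple and can be exchanged. -/
def Twin {a : ℕ → ℕ} {κ : Type} (K : StrOn a κ) (u w : κ) : Prop :=
  (∀ n t, K n t = true → ∀ i j, t i = u → t j = w → False) ∧
  ∀ n t, K n (fun i => Equiv.swap u w (t i)) = K n t

/-- no two different elements are twins -/
def TwinFree {a : ℕ → ℕ} {κ : Type} (K : StrOn a κ) : Prop := ∀ u w, u ≠ w → ¬ Twin K u w

end Pool.H17.TG
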