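import Pool.Agent.H17.TG.Inv
import Pool.Agent.H17.TV.Perf
import Pool.Agent.H17.TV.Ar3
import Pool.Agent.H17.TW.DecM

/-!
# Finitely many twin classes
-/

set_option autoImplicit false

namespace Pool.H17.TG

open Pool.H17.TV

/-- Two surjections with fibres of equal size differ by a permutation (fibrewise bijections; the
fibres are countable sets of equal `encard`). -/
theorem surj_perm {k : ℕ} (π ρ : ℕ → Fin k)
    (h : ∀ i, {x | π x = i}.encard = {x | ρ x = i}.encard) :
    ∃ σ : Equiv.Perm ℕ, ∀ x, ρ (σ x) = π x := by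
  classical
  have h1 : ∀ i, Nonempty ({x // π x = i} ≃ {x // ρ x = i}) := by
    intro i
    have h2 := h i
    rw [← Set.toENat_cardinalMk, ← Set.toENat_cardinalMk] at h2
    have h3 : Cardinal.mk {x | π x = i} = Cardinal.mk {x | ρ x = i} :=
      Cardinal.toENat_injOn (Cardinal.mk_le_aleph0) (Cardinal.mk_le_aleph0) h2
    exact Cardinal.eq.1 h3
  let e : ∀ i, {x // π x = i} ≃ {x // ρ x = i} := fun i => (h1 i).some
  let σ : Equiv.Perm ℕ :=
    (Equiv.sigmaFiberEquiv π).symm.trans ((Equiv.sigmaCongrRight e).trans (Equiv.sigmaFiberEquiv ρ))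
  refine ⟨σ, fun x => ?_⟩
  exact (e (π x) ⟨x, rfl⟩).2

theorem blow_perm {a : ℕ → ℕ} {κ : Type} (K : StrOn a κ) (π ρ : ℕ → κ) (σ : Equiv.Perm ℕ)
    (h : ∀ x, ρ (σ x) = π x) (n : ℕ) (t : Fin (a n) → ℕ) :
    blow K ρ n (fun i => σ (t i)) = blow K π n t := by
  have h1 : (fun i => ρ (σ (t i))) = fun i => π (t i) := funext fun i => h (t i)
  have h2 : (∀ i j, ρ (σ (t i)) = ρ (σ (t j)) → σ (t i) = σ (t j)) ↔
      (∀ i j, π (t i) = π (t j) → t i = t j) := by
    simp only [h, σ.injective.eq_iff]
  unfold blow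
  rw [decide_eq_decide, h1, h2]

theorem blow_cont' {a : ℕ → ℕ} {k : ℕ} (ρ : ℕ → Fin k) :
    Continuous (fun K : StrOn a (Fin k) => blow K ρ) := by
  classical
  refine continuous_pi fun n => continuous_pi fun t => ?_
  by_cases hP : ∀ i j, ρ (t i) = ρ (t j) → t i = t j
  · have h1 : (fun K : StrOn a (Fin k) => blow K ρ n t) = fun K => K n (fun i => ρ (t i)) := by
      funext K
      unfold blow
      by_cases hK : K n (fun i => ρ (t i)) = true
      · rw [hK]; simpa [hK] using hP
      · have hK' : K n (fun i => ρ (t i)) = false := by simpa using hK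
        rw [hK']; simp
    rw [h1]
    exact (continuous_apply _).comp (continuous_apply n)
  · have h1 : (fun K : StrOn a (Fin k) => blow K ρ n t) = fun _ => false := by
      funext K
      unfold blow
      simp [hP]
    rw [h1]
    exact continuous_const

/-- PROOF. `perf` of `TV/Perf.lean` with `X = Z = StrOn a (Fin k)` (Polish, a countable product of
discrete spaces; the σ-algebra is the Borel one), `g = id`, the set `{K | blow K ρ ∈ B}` and the
functions `K ↦ (n, t ↦ blow K ρ n (h ∘ t))` for the countably many `h : Fin k → ℕ` gives a continuous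
`f : (ℕ → Bool) → StrOn a (Fin k)` with `blow (f s) ρ ∈ B`. If `σ` is an isomorphism from
`blow (f s) ρ` to `blow (f s') ρ` and `ι` a section of `ρ`, then
`f s' n t = blow (f s') ρ n (ι ∘ t) = blow (f s) ρ n (σ⁻¹ ∘ ι ∘ t)`, so `s = s'`. Use
`dich_of_family`. -/
theorem dich_unc {a : ℕ → ℕ} (B : Set (Str a)) (hB : @MeasurableSet (Str a) (borel (Str a)) B)
    (k : ℕ) (ρ : ℕ → Fin k) (hρ : Function.Surjective ρ)
    (hunc : ¬ {K : StrOn a (Fin k) | blow K ρ ∈ B}.Countable) : Dich B := by
  classical
  have hs0 : ∀ n, SecondCountableTopology ((Fin (a n) → Fin k) → Bool) := fun n => inferInstance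
  have hb0 : ∀ n, BorelSpace ((Fin (a n) → Fin k) → Bool) := fun n => Pi.borelSpace
  have hp0 : ∀ n, PolishSpace ((Fin (a n) → Fin k) → Bool) := fun n => inferInstance
  have hs1 : SecondCountableTopology (StrOn a (Fin k)) := by
    unfold StrOn; infer_instance
  have hb1 : BorelSpace (StrOn a (Fin k)) := by
    unfold StrOn; exact Pi.borelSpace
  have hp1 : PolishSpace (StrOn a (Fin k)) := by
    unfold StrOn; infer_instance
  have ht1 : T2Space (StrOn a (Fin k)) := by
    unfold StrOn; infer_instance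
  have hb2 : BorelSpace (Str a) := TW.borel_str a
  have hBm : MeasurableSet B := by
    have h := hB
    rw [← hb2.measurable_eq] at h
    exact h
  have hcont := blow_cont' (a := a) ρ
  have hB' : MeasurableSet {K : StrOn a (Fin k) | blow K ρ ∈ B} := hcont.measurable hBm
  obtain ⟨e, he⟩ := exists_surjective_nat (Fin k → ℕ)
  have hF : ∀ j, Measurable (fun K : StrOn a (Fin k) =>
      ((fun n t => blow K ρ n (fun i => e j (t i))) : StrOn a (Fin k))) := by
    intro j
    refine Continuous.measurable ?_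
    refine continuous_pi fun n => continuous_pi fun t => ?_
    exact (continuous_apply _).comp ((continuous_apply n).comp hcont)
  have hunc' : ¬ ((fun K : StrOn a (Fin k) => K) '' {K : StrOn a (Fin k) | blow K ρ ∈ B}).Countable := by
    rw [Set.image_id']
    exact hunc
  obtain ⟨f, hf, hfB, hfF⟩ := perf {K : StrOn a (Fin k) | blow K ρ ∈ B} hB'
    (fun K => K) measurable_id (fun j K n t => blow K ρ n (fun i => e j (t i))) hF hunc'
  refine dich_of_family B (fun s => blow (f s) ρ) (hcont.comp hf) hfB ?_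
  rintro s s' ⟨σ, hσ⟩
  by_contra hss
  obtain ⟨ι, hι⟩ := hρ.hasRightInverse
  obtain ⟨j, hj⟩ := he (fun x => σ.symm (ι x))
  refine hfF j s s' hss ?_
  funext n t
  have h1 : blow (f s') ρ n (fun i => ι (t i)) = f s' n t := by
    unfold blow
    have h2 : (fun i => ρ (ι (t i))) = t := by
      funext i
      exact hι (t i)
    by_cases hK : f s' n t = true
    · rw [hK]
      simp only [h2, decide_eq_true_eq]
      refine ⟨hK, fun i j hij => ?_⟩
      rw [hι, hι] at hij
      rw [hij]
    · have hK' : f s' n t = false := by simpa using hK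
      rw [hK']
      simp [h2, hK']
  have h3 := hσ n (fun i => σ.symm (ι (t i)))
  simp only [Equiv.apply_symm_apply] at h3
  show blow (f s) ρ n (fun i => e j (t i)) = f s' n t
  rw [hj, ← h1, h3]

/-- PROOF. For every `k` and every `μ : Fin k → ℕ∞` which is the fibre size function of a surjection
choose such a surjection `ρ k μ`. There are countably many pairs `(k, μ)`. If for some of them
`{K | blow K (ρ k μ) ∈ B}` is uncountable use `dich_unc`. Otherwise the set of all
`blow K (ρ k μ) ∈ B` is countable, and every `M = blow K π ∈ B` (`κ` finite, so `κ ≃ Fin k`) is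
isomorphic to `blow K (ρ k μ)` for its fibre size function `μ` by `surj_perm`, `blow_perm` (it is in
`B` by `BlowInv`). -/
theorem dich_fin {a : ℕ → ℕ} (B : Set (Str a)) (hB : @MeasurableSet (Str a) (borel (Str a)) B)
    (hinv : BlowInv B)
    (h : ∀ M ∈ B, ∃ (κ : Type) (_ : Finite κ) (K : StrOn a κ) (π : ℕ → κ),
      Function.Surjective π ∧ blow K π = M) : Dich B := by
  classical
  by_cases hu : ∃ (k : ℕ) (ρ : ℕ → Fin k), Function.Surjective ρ ∧
      ¬ {K : StrOn a (Fin k) | blow K ρ ∈ B}.Countable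
  · obtain ⟨k, ρ, hρ, hunc⟩ := hu
    exact dich_unc B hB k ρ hρ hunc
  · push Not at hu
    left
    let I : Type := {p : (Σ k : ℕ, Fin k → ℕ∞) // ∃ ρ : ℕ → Fin p.1, Function.Surjective ρ ∧
      ∀ i, {x | ρ x = i}.encard = p.2 i}
    have hI : ∀ p : I, ∃ ρ : ℕ → Fin p.1.1, Function.Surjective ρ ∧
      ∀ i, {x | ρ x = i}.encard = p.1.2 i := fun p => p.2
    choose rep hrep1 hrep2 using hI
    refine ⟨⋃ p : I, (fun K : StrOn a (Fin p.1.1) => blow K (rep p)) ''
      {K : StrOn a (Fin p.1.1) | blow K (rep p) ∈ B}, ?_, ?_⟩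
    · exact Set.countable_iUnion fun p => (hu p.1.1 (rep p) (hrep1 p)).image _
    · intro M hM
      obtain ⟨κ, hκ, K, π, hπ, rfl⟩ := h M hM
      obtain ⟨k, ⟨e⟩⟩ := Finite.exists_equiv_fin κ
      let π' : ℕ → Fin k := fun x => e (π x)
      let K' : StrOn a (Fin k) := fun n t => K n (fun i => e.symm (t i))
      have hπ' : Function.Surjective π' := e.surjective.comp hπ
      have hKK : blow K' π' = blow K π := by
        funext n t
        unfold blow
        simp only [K', π', Equiv.symm_apply_apply, e.injective.eq_iff]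
      let p : I := ⟨⟨k, fun i => {x | π' x = i}.encard⟩, π', hπ', fun i => rfl⟩
      obtain ⟨σ, hσ⟩ := surj_perm π' (rep p) (fun i => (hrep2 p i).symm)
      have hmem : blow K' (rep p) ∈ B := by
        refine hinv (Fin k) inferInstance K' π' (rep p) hπ' (hrep1 p) ?_
        rw [hKK]
        exact hM
      refine ⟨blow K' (rep p), Set.mem_iUnion.2 ⟨p, K', hmem, rfl⟩, σ, fun n t => ?_⟩
      rw [← hKK]
      exact blow_perm K' π' (rep p) σ hσ n t

end Pool.H17.TG
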