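import Pool.Agent.H17.TG.Inv

/-!
# Infinitely many twin classes: twins of a pullback, the surjections
-/

set_option autoImplicit false

namespace Pool.H17.TG

open Pool.H17.TV

theorem infA_twin_apply {a : ℕ → ℕ} {κ : Type} [DecidableEq κ] {K : StrOn a κ} {u w : κ}
    (h : Twin K u w) (n : ℕ) (t : Fin (a n) → κ) :
    K n (fun i => Equiv.swap u w (t i)) = K n t := by
  have e : (inferInstance : DecidableEq κ) = fun a b => Classical.propDecidable (a = b) :=
    Subsingleton.elim _ _
  have h2 := h.2 n t
  rw [← e] at h2
  exact h2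

theorem infA_twin_mk {a : ℕ → ℕ} {κ : Type} [DecidableEq κ] {K : StrOn a κ} {u w : κ}
    (h : ∀ n t, K n t = true → ∀ i j, t i = u → t j = w → False)
    (h' : ∀ n t, K n (fun i => Equiv.swap u w (t i)) = K n t) : Twin K u w := by
  refine ⟨h, fun n t => ?_⟩
  have e : (inferInstance : DecidableEq κ) = fun a b => Classical.propDecidable (a = b) :=
    Subsingleton.elim _ _
  have h2 := h' n t
  rw [← e]
  exact h2

/-- PROOF. If `π x = π y` then `x, y` do not occur together in a true tuple by definition, and
exchanging them does not change the values of `π` (nor the compatibility condition). If `π x ≠ π y`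
and `x, y` were twins in `blow K π` then `π x, π y` would be twins in `K`: take a section `σ` of `π`
with `σ (π x) = x`, `σ (π y) = y`; `K n s = blow K π n (σ ∘ s)` and
`σ ∘ swap (π x) (π y) = swap x y ∘ σ` on the values of `s`. -/
theorem twin_blow {a : ℕ → ℕ} {κ : Type} (K : StrOn a κ) (hK : TwinFree K) (π : ℕ → κ)
    (hπ : Function.Surjective π) (x y : ℕ) (hxy : x ≠ y) :
    Twin (blow K π) x y ↔ π x = π y := by
  classical
  constructor
  · intro hT
    by_contra hne
    -- a section
    have hsec : ∃ σ : κ → ℕ, (∀ c, π (σ c) = c) ∧ σ (π x) = x ∧ σ (π y) = y := by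
      refine ⟨fun c => if c = π x then x else if c = π y then y else Function.surjInv hπ c,
        fun c => ?_, ?_, ?_⟩
      · by_cases h1 : c = π x
        · simp [h1]
        · by_cases h2 : c = π y
          · subst h2
            simp [h1]
          · simp only [h1, h2, if_false]
            exact Function.surjInv_eq hπ c
      · simp
      · simp [Ne.symm hne]
    obtain ⟨σ, hσ, hσx, hσy⟩ := hsec
    have hKb : ∀ n (s : Fin (a n) → κ), blow K π n (fun i => σ (s i)) = K n s := by
      intro n s
      rw [Bool.eq_iff_iff, blow_iff]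
      have : (fun i => π (σ (s i))) = s := by funext i; exact hσ (s i)
      rw [this]
      refine ⟨fun h => h.1, fun h => ⟨h, fun i j hij => ?_⟩⟩
      rw [hσ, hσ] at hij
      rw [hij]
    refine hK (π x) (π y) hne (infA_twin_mk (fun n s hs i j hi hj => ?_) fun n s => ?_)
    · refine hT.1 n (fun i => σ (s i)) ?_ i j ?_ ?_
      · rw [hKb]; exact hs
      · simp only [hi, hσx]
      · simp only [hj, hσy]
    · have hsw : ∀ c, σ (Equiv.swap (π x) (π y) c) = Equiv.swap x y (σ c) := by
        intro c
        by_cases h1 : c = π x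
        · rw [h1, Equiv.swap_apply_left, hσx, hσy, Equiv.swap_apply_left]
        · by_cases h2 : c = π y
          · rw [h2, Equiv.swap_apply_right, hσx, hσy, Equiv.swap_apply_right]
          · rw [Equiv.swap_apply_of_ne_of_ne h1 h2, Equiv.swap_apply_of_ne_of_ne]
            · intro h; exact h1 (by rw [← h, hσ])
            · intro h; exact h2 (by rw [← h, hσ])
      rw [← hKb, ← hKb]
      have : (fun i => σ (Equiv.swap (π x) (π y) (s i))) =
          fun i => Equiv.swap x y (σ (s i)) := by
        funext i; exact hsw (s i)
      rw [this]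
      exact infA_twin_apply hT n (fun i => σ (s i))
  · intro hπxy
    refine infA_twin_mk (fun n t ht i j hi hj => ?_) fun n t => ?_
    · rw [blow_iff] at ht
      refine hxy ?_
      have := ht.2 i j (by rw [hi, hj]; exact hπxy)
      rwa [hi, hj] at this
    · have hsw : ∀ z, π (Equiv.swap x y z) = π z := by
        intro z
        by_cases h1 : z = x
        · rw [h1, Equiv.swap_apply_left]; exact hπxy.symm
        · by_cases h2 : z = y
          · rw [h2, Equiv.swap_apply_right]; exact hπxy
          · rw [Equiv.swap_apply_of_ne_of_ne h1 h2]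
      rw [Bool.eq_iff_iff, blow_iff, blow_iff]
      have h3 : (fun i => π (Equiv.swap x y (t i))) = fun i => π (t i) := by
        funext i; exact hsw (t i)
      rw [h3]
      refine and_congr_right fun _ => forall_congr' fun i => forall_congr' fun j => ?_
      rw [hsw, hsw, (Equiv.swap x y).injective.eq_iff]

theorem infA_iso_aux {a : ℕ → ℕ} (M N : Str a) (σ : Equiv.Perm ℕ)
    (hσ : ∀ (n : ℕ) (t : Fin (a n) → ℕ), N n (fun i => σ (t i)) = M n t) (x y : ℕ)
    (h : Twin N (σ x) (σ y)) : Twin M x y := by
  refine infA_twin_mk (fun n t ht i j hi hj => ?_) fun n t => ?_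
  · refine h.1 n (fun i => σ (t i)) ?_ i j ?_ ?_
    · rw [hσ]; exact ht
    · simp only [hi]
    · simp only [hj]
  · rw [← hσ, ← hσ]
    have : (fun i => σ (Equiv.swap x y (t i))) = fun i => Equiv.swap (σ x) (σ y) (σ (t i)) := by
      funext i
      exact σ.injective.map_swap x y (t i)
    rw [this]
    exact infA_twin_apply h n (fun i => σ (t i))

/-- An isomorphism of structures preserves twins. -/
theorem twin_iso {a : ℕ → ℕ} (M N : Str a) (σ : Equiv.Perm ℕ)
    (hσ : ∀ (n : ℕ) (t : Fin (a n) → ℕ), N n (fun i => σ (t i)) = M n t) (x y : ℕ) :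
    Twin N (σ x) (σ y) ↔ Twin M x y := by
  refine ⟨infA_iso_aux M N σ hσ x y, fun h => ?_⟩
  refine infA_iso_aux N M σ.symm (fun n t => ?_) (σ x) (σ y) (by simpa using h)
  rw [← hσ]
  simp

/-- A family of surjections `ℕ → ℕ` such that the fibre over `0` is infinite and the fibre over
`k + 1` has `2 k + 2 + s k` elements. PROOF. Even numbers are mapped to `0`. List the odd numbers in
blocks, block `k` of length `2 k + 3` (`k = 0, 1, ...`; e.g. via `Nat.find` or via an equivalence of
the odd numbers with `Σ k, Fin (2 k + 3)`); the elements of block `k` are mapped to `k + 1`, except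
the last one, which is mapped to `k + 1` if `s k = true` and to `0` otherwise. -/
theorem surj_family : ∃ p : (ℕ → Bool) → ℕ → ℕ, (∀ x, Continuous (fun s => p s x)) ∧
    (∀ s, Function.Surjective (p s)) ∧ (∀ s, {x | p s x = 0}.Infinite) ∧
    ∀ s k, {x | p s x = k + 1}.encard = ((2 * k + 2 + (if s k then 1 else 0) : ℕ) : ℕ∞) := by
  classical
  let p : (ℕ → Bool) → ℕ → ℕ := fun s x => if x % 2 = 0 then 0 else
    if x / 2 + 2 = (Nat.sqrt (x / 2 + 1) + 1) ^ 2 ∧ s (Nat.sqrt (x / 2 + 1) - 1) = false then 0
    else Nat.sqrt (x / 2 + 1)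
  have hfib : ∀ s k, {x | p s x = k + 1}.encard =
      ((2 * k + 2 + (if s k then 1 else 0) : ℕ) : ℕ∞) := by
    intro s k
    set e : ℕ := if s k then 1 else 0 with he
    have he1 : (e = 1 ∧ s k = true) ∨ (e = 0 ∧ s k = false) := by
      rw [he]; cases s k <;> simp
    have hset : {x | p s x = k + 1} = ((Finset.Ico ((k + 1) ^ 2 - 1) ((k + 2) ^ 2 - 2 + e)).image
        (fun m => 2 * m + 1) : Finset ℕ) := by
      ext x
      simp only [Set.mem_ofPred_eq, Finset.coe_image, Set.mem_image, Finset.mem_coe,
        Finset.mem_Ico, p]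
      have hsq1 : (k + 1) ^ 2 = k * k + 2 * k + 1 := by ring
      have hsq2 : (k + 2) ^ 2 = k * k + 4 * k + 4 := by ring
      constructor
      · intro h
        by_cases hx0 : x % 2 = 0
        · rw [if_pos hx0] at h; omega
        · rw [if_neg hx0] at h
          split_ifs at h with hc
          · have h1 : (k + 1) * (k + 1) ≤ x / 2 + 1 := by
              rw [← h]; exact Nat.sqrt_le _
            have h2 : x / 2 + 1 < (k + 2) * (k + 2) := by
              have := Nat.lt_succ_sqrt (x / 2 + 1)
              rw [h] at this
              exact this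
            have h1' : k * k + 2 * k + 1 ≤ x / 2 + 1 := by
              have : (k + 1) * (k + 1) = k * k + 2 * k + 1 := by ring
              omega
            have h2' : x / 2 + 1 < k * k + 4 * k + 4 := by
              have : (k + 2) * (k + 2) = k * k + 4 * k + 4 := by ring
              omega
            refine ⟨x / 2, ⟨?_, ?_⟩, ?_⟩
            · rw [hsq1]; omega
            · rw [hsq2]
              rcases he1 with ⟨h3, h4⟩ | ⟨h3, h4⟩
              · omega
              · have h5 : ¬ (x / 2 + 2 = (k + 2) ^ 2) := by
                  intro h6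
                  apply hc
                  rw [h]
                  refine ⟨h6, ?_⟩
                  simpa using h4
                rw [hsq2] at h5
                omega
            · omega
      · rintro ⟨m, ⟨h1, h2⟩, rfl⟩
        rw [hsq1] at h1
        rw [hsq2] at h2
        have hmod : ¬ ((2 * m + 1) % 2 = 0) := by omega
        have hdiv : (2 * m + 1) / 2 = m := by omega
        rw [if_neg hmod, hdiv]
        have hle : e ≤ 1 := by rcases he1 with ⟨h, -⟩ | ⟨h, -⟩ <;> omega
        have hsqrt : Nat.sqrt (m + 1) = k + 1 := by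
          symm
          rw [Nat.eq_sqrt]
          constructor
          · have : (k + 1) * (k + 1) = k * k + 2 * k + 1 := by ring
            omega
          · have : (k + 1 + 1) * (k + 1 + 1) = k * k + 4 * k + 4 := by ring
            omega
        rw [hsqrt, if_neg]
        rintro ⟨h3, h4⟩
        have h5 : (k + 1 + 1) ^ 2 = k * k + 4 * k + 4 := by ring
        rw [h5] at h3
        rw [Nat.add_sub_cancel] at h4
        rcases he1 with ⟨h6, h7⟩ | ⟨h6, h7⟩
        · rw [h7] at h4; exact absurd h4 (by simp)
        · omega
    rw [hset, Set.encard_coe_eq_coe_finsetCard, Finset.card_image_of_injective, Nat.card_Ico]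
    · congr 1
      have hsq1 : (k + 1) ^ 2 = k * k + 2 * k + 1 := by ring
      have hsq2 : (k + 2) ^ 2 = k * k + 4 * k + 4 := by ring
      rw [hsq1, hsq2]
      omega
    · intro m m' h
      simp only at h
      omega
  refine ⟨p, fun x => ?_, fun s => ?_, fun s => ?_, hfib⟩
  · have : (fun s => p s x) = (fun b : Bool => if x % 2 = 0 then 0 else
        if x / 2 + 2 = (Nat.sqrt (x / 2 + 1) + 1) ^ 2 ∧ b = false then 0
        else Nat.sqrt (x / 2 + 1)) ∘ fun s : ℕ → Bool => s (Nat.sqrt (x / 2 + 1) - 1) := rfl
    rw [this]
    exact continuous_of_discreteTopology.comp (continuous_apply _)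
  · intro k
    cases k with
    | zero => exact ⟨0, by simp [p]⟩
    | succ k =>
      have h1 : {x | p s x = k + 1}.Nonempty := by
        rw [← Set.encard_ne_zero, hfib s k]
        exact_mod_cast (by omega : 2 * k + 2 + (if s k then 1 else 0) ≠ 0)
      exact h1
  · refine Set.infinite_of_injective_forall_mem (f := fun n : ℕ => 2 * n) ?_ ?_
    · intro m m' h
      simp only at h
      omega
    · intro n
      have : (2 * n) % 2 = 0 := by omega
      simp only [Set.mem_ofPred_eq, p, this, if_true]

theorem blow_cont {a : ℕ → ℕ} (K : StrOn a ℕ) (p : (ℕ → Bool) → ℕ → ℕ)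
    (hp : ∀ x, Continuous (fun s => p s x)) : Continuous (fun s => blow K (p s)) := by
  classical
  refine continuous_pi fun n => continuous_pi fun t => ?_
  have h1 : (fun s => blow K (p s) n t) = (fun g : Fin (a n) → ℕ =>
      decide (K n g = true ∧ ∀ i j, g i = g j → t i = t j)) ∘ fun s i => p s (t i) := by
    funext s
    simp only [Function.comp_apply]
    rw [Bool.eq_iff_iff, blow_iff, decide_eq_true_iff]
  rw [h1]
  exact continuous_of_discreteTopology.comp (continuous_pi fun i => hp (t i))

end Pool.H17.TG
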