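import Pool.Agent.H17.TG.InfA
import Pool.Agent.H17.TV.Ar3

/-!
# Infinitely many twin classes: a Cantor family
-/

set_option autoImplicit false

namespace Pool.H17.TG

open Pool.H17.TV

/-- PROOF. `κ ≃ ℕ`, so `K` may be transported to a twin-free structure `K'` on `ℕ` with
`blow K π = blow K' (e ∘ π)`. Take `p` from `surj_family` and the family `s ↦ blow K' (p s)`; it lies
in `B` by `BlowInv` and is continuous. Let `σ` be an isomorphism from `s` to `s'`. By `twin_iso` and
`twin_blow`, `σ` maps the fibre of `p s` over `k + 1` onto the fibre of `p s'` over some `l`; it is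
finite, so `l = m + 1`, and `2 k + 2 + s k = 2 m + 2 + s' m`; hence `m = k`, `s k = s' k`. Use
`dich_of_family`. -/
theorem dich_inf {a : ℕ → ℕ} (B : Set (Str a)) (hB : BlowInv B) (κ : Type) (hκ : Countable κ)
    (hκ' : Infinite κ) (K : StrOn a κ) (hK : TwinFree K) (π : ℕ → κ)
    (hπ : Function.Surjective π) (hM : blow K π ∈ B) : Dich B := by
  classical
  obtain ⟨e⟩ : Nonempty (κ ≃ ℕ) := by
    have : Encodable κ := Encodable.ofCountable κ
    have : Denumerable κ := Denumerable.ofEncodableOfInfinite κ
    exact ⟨Denumerable.eqv κ⟩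
  obtain ⟨p, hpc, hps, hp0, hpk⟩ := surj_family
  set K' : StrOn a ℕ := fun n s => K n (fun i => e.symm (s i)) with hK'
  have hfam : ∀ s, blow K' (p s) = blow K (fun x => e.symm (p s x)) := by
    intro s
    funext n t
    rw [Bool.eq_iff_iff, blow_iff, blow_iff]
    refine and_congr Iff.rfl (forall_congr' fun i => forall_congr' fun j => ?_)
    rw [e.symm.injective.eq_iff]
  have hρ : ∀ s, Function.Surjective (fun x => e.symm (p s x)) := fun s =>
    e.symm.surjective.comp (hps s)
  refine dich_of_family B (fun s => blow K' (p s)) (blow_cont K' p hpc) (fun s => ?_) ?_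
  · change blow K' (p s) ∈ B
    rw [hfam s]
    exact hB κ hκ K π _ hπ (hρ s) hM
  · rintro s s' ⟨σ, hσ⟩
    have htw : ∀ s x y, x ≠ y → (Twin (blow K' (p s)) x y ↔ p s x = p s y) := by
      intro s x y hxy
      rw [hfam s, twin_blow K hK _ (hρ s) x y hxy]
      exact e.symm.injective.eq_iff
    have hfib : ∀ x y, p s' (σ x) = p s' (σ y) ↔ p s x = p s y := by
      intro x y
      by_cases hxy : x = y
      · simp [hxy]
      · have hxy' : σ x ≠ σ y := fun h => hxy (σ.injective h)
        rw [← htw s x y hxy, ← htw s' (σ x) (σ y) hxy']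
        exact twin_iso _ _ σ hσ x y
    funext k
    obtain ⟨x, hx⟩ := hps s (k + 1)
    have himg : {y | p s' y = p s' (σ x)} = σ '' {y | p s y = k + 1} := by
      ext y
      rw [Set.mem_image]
      constructor
      · intro hy
        refine ⟨σ.symm y, ?_, by simp⟩
        have h1 := hfib (σ.symm y) x
        rw [Equiv.apply_symm_apply] at h1
        exact (h1.1 hy).trans hx
      · rintro ⟨z, hz, rfl⟩
        have hz' : p s z = k + 1 := hz
        exact (hfib z x).2 (hz'.trans hx.symm)
    have hcard : {y | p s' y = p s' (σ x)}.encard =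
        ((2 * k + 2 + (if s k then 1 else 0) : ℕ) : ℕ∞) := by
      rw [himg, σ.injective.encard_image, hpk s k]
    rcases hl : p s' (σ x) with _ | m
    · rw [hl, (hp0 s').encard_eq] at hcard
      exact absurd hcard (ENat.natCast_ne_top _).symm
    · rw [hl, hpk s' m] at hcard
      have h2 : 2 * m + 2 + (if s' m then 1 else 0) = 2 * k + 2 + (if s k then 1 else 0) := by
        exact_mod_cast hcard
      have h3 : (if s' m then 1 else 0) ≤ 1 := by split_ifs <;> omega
      have h4 : (if s k then 1 else 0) ≤ 1 := by split_ifs <;> omega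
      have hmk : m = k := by omega
      subst hmk
      have h5 : (if s' m then 1 else 0) = (if s m then 1 else 0) := by omega
      cases h6 : s m <;> cases h7 : s' m <;> simp [h6, h7] at h5 ⊢

end Pool.H17.TG
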