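import Pool.Agent.H17.TG.Defs
import Pool.Agent.H17.TV.Width

/-!
# Sentences of the fragment do not see copies
-/

set_option autoImplicit false

namespace Pool.H17.TG

open Pool.H17.TV

theorem blow_iff {a : ℕ → ℕ} {κ : Type} (K : StrOn a κ) (π : ℕ → κ) (n : ℕ) (t : Fin (a n) → ℕ) :
    blow K π n t = true ↔
      (K n (fun i => π (t i)) = true ∧ ∀ i j, π (t i) = π (t j) → t i = t j) := by
  classical
  unfold blow
  rw [decide_eq_true_iff]

theorem and2_sat {a : ℕ → ℕ} (M : Str a) (φ χ : Fml a) (v : ℕ → ℕ) :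
    Sat M (and2 φ χ) v ↔ Sat M φ v ∧ Sat M χ v := by
  unfold and2
  simp only [Sat]
  constructor
  · intro h
    exact ⟨by simpa using h 0, by simpa using h 1⟩
  · rintro ⟨h0, h1⟩ k
    by_cases hk : k = 0
    · simpa [hk] using h0
    · simpa [hk] using h1

/-- Induction on `α` (for all `v`). `rel n t`: the second part of `blow_iff`. `eq`: trivial. `conj`:
the conjunct. `ex l`: `Function.update` at `l` does not change the values at `i`, `j`. -/
theorem guard_compat {a : ℕ → ℕ} {κ : Type} (K : StrOn a κ) (π : ℕ → κ) (α : Fml a) (i j : ℕ)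
    (h : PairGuard α i j) (v : ℕ → ℕ) (hs : Sat (blow K π) α v) (hij : π (v i) = π (v j)) :
    v i = v j := by
  induction α generalizing v with
  | rel n t =>
    obtain ⟨⟨x, hx⟩, ⟨y, hy⟩⟩ := h
    have h1 := (blow_iff K π n _).1 hs
    have h2 := h1.2 x y
    simp only [hx, hy] at h2
    exact h2 hij
  | eq k l =>
    have hs' : v k = v l := hs
    obtain ⟨h1, h2⟩ := h
    rcases h1 with rfl | rfl <;> rcases h2 with rfl | rfl
    · rfl
    · exact hs'
    · exact hs'.symm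
    · rfl
  | neg φ ih => exact absurd h (by simp [PairGuard])
  | conj φ ih =>
    obtain ⟨k, hk⟩ := h
    exact ih k hk v (hs k) hij
  | ex l φ ih =>
    obtain ⟨h1, h2, h3⟩ := h
    obtain ⟨x, hx⟩ := hs
    have := ih h3 (Function.update v l x) hx (by
      rw [Function.update_of_ne h1, Function.update_of_ne h2]
      exact hij)
    rwa [Function.update_of_ne h1, Function.update_of_ne h2] at this

/-- a section of `π` through given values -/
theorem section_through {κ : Type} (π : ℕ → κ) (hπ : Function.Surjective π) (s : Set ℕ) (v : ℕ → ℕ)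
    (h : ∀ i ∈ s, ∀ j ∈ s, π (v i) = π (v j) → v i = v j) :
    ∃ σ : κ → ℕ, (∀ x, π (σ x) = x) ∧ ∀ i ∈ s, σ (π (v i)) = v i := by
  classical
  choose σ₀ hσ₀ using hπ
  refine ⟨fun x => if hx : ∃ i ∈ s, π (v i) = x then v hx.choose else σ₀ x, ?_, ?_⟩
  · intro x
    by_cases hx : ∃ i ∈ s, π (v i) = x
    · simp only [dif_pos hx]
      exact hx.choose_spec.2
    · simp only [dif_neg hx]
      exact hσ₀ x
  · intro i hi
    have hx : ∃ j ∈ s, π (v j) = π (v i) := ⟨i, hi, rfl⟩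
    simp only [dif_pos hx]
    exact h _ hx.choose_spec.1 _ hi hx.choose_spec.2

/-- the step for negated formulas -/
theorem inv_neg_step {a : ℕ → ℕ} (φ : Fml a)
    (ih : ∀ (κ : Type) (K : StrOn a κ) (π ρ : ℕ → κ),
      Function.Surjective π → Function.Surjective ρ → ∀ (v : ℕ → ℕ) (σ' : κ → ℕ),
        (∀ x, ρ (σ' x) = x) → Sat (blow K π) φ v → Sat (blow K ρ) φ (fun i => σ' (π (v i))))
    (κ : Type) (K : StrOn a κ) (π ρ : ℕ → κ)
    (hπ : Function.Surjective π) (hρ : Function.Surjective ρ) (v : ℕ → ℕ) (σ' : κ → ℕ)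
    (hσ : ∀ x, ρ (σ' x) = x)
    (hc : ∀ i ∈ fv φ, ∀ j ∈ fv φ, π (v i) = π (v j) → v i = v j)
    (hs : ¬ Sat (blow K π) φ v) : ¬ Sat (blow K ρ) φ (fun i => σ' (π (v i))) := by
  intro hsat
  obtain ⟨σ, h1, h2⟩ := section_through π hπ (fv φ) v hc
  have h3 := ih κ K ρ π hρ hπ _ σ h1 hsat
  apply hs
  refine (sat_fv _ φ _ _ ?_).1 h3
  intro i hi
  simp only [hσ]
  exact h2 i hi

/-- PROOF. Induction on the derivation of `GN φ`, for all `π, ρ, v, σ'` simultaneously.
* `rel`: `blow_iff`; `ρ (σ' (π (v (t i)))) = π (v (t i))`.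
* `eq`, `conj`, `disj`: clear.
* `ex i φ`: a witness `x` for `π` gives the witness `σ' (π x)` for `ρ`.
* `neg φ`, `gneg α φ`: suppose `φ` holds in `blow K ρ` at `σ' ∘ π ∘ v`. By `section_through`
  (for `s = fv φ`, using `guard_compat`, resp. at most one free variable) there is a section `σ` of
  `π` with `σ (π (v i)) = v i` for `i ∈ fv φ`. The induction hypothesis for `φ` with `π` and `ρ`
  exchanged gives `φ` in `blow K π` at `σ ∘ ρ ∘ σ' ∘ π ∘ v = σ ∘ π ∘ v`, which agrees with `v` on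
  `fv φ` (`sat_fv` from `TV/Width.lean`), a contradiction. -/
theorem gn_blow {a : ℕ → ℕ} (φ : Fml a) (h : GN φ) : ∀ (κ : Type) (K : StrOn a κ) (π ρ : ℕ → κ),
    Function.Surjective π → Function.Surjective ρ → ∀ (v : ℕ → ℕ) (σ' : κ → ℕ),
      (∀ x, ρ (σ' x) = x) → Sat (blow K π) φ v → Sat (blow K ρ) φ (fun i => σ' (π (v i))) := by
  induction h with
  | rel n t =>
    intro κ K π ρ hπ hρ v σ' hσ hs
    have h1 := (blow_iff K π n _).1 hs
    refine (blow_iff K ρ n _).2 ?_
    simp only [hσ]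
    refine ⟨h1.1, fun i j hij => ?_⟩
    rw [hij]
  | eq i j =>
    intro κ K π ρ hπ hρ v σ' hσ hs
    have hs' : v i = v j := hs
    show σ' (π (v i)) = σ' (π (v j))
    rw [hs']
  | conj φ _ ih =>
    intro κ K π ρ hπ hρ v σ' hσ hs k
    exact ih k κ K π ρ hπ hρ v σ' hσ (hs k)
  | disj φ _ ih =>
    intro κ K π ρ hπ hρ v σ' hσ hs hs'
    apply hs
    intro k hk
    exact hs' k (ih k κ K π ρ hπ hρ v σ' hσ hk)
  | ex i φ _ ih =>
    intro κ K π ρ hπ hρ v σ' hσ hs
    obtain ⟨x, hx⟩ := hs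
    have h1 := ih κ K π ρ hπ hρ _ σ' hσ hx
    refine ⟨σ' (π x), ?_⟩
    have h2 : Function.update (fun j => σ' (π (v j))) i (σ' (π x)) =
        fun j => σ' (π (Function.update v i x j)) := by
      funext j
      by_cases hj : j = i
      · subst hj
        simp
      · rw [Function.update_of_ne hj, Function.update_of_ne hj]
    rw [h2]
    exact h1
  | neg φ hcard _ ih =>
    intro κ K π ρ hπ hρ v σ' hσ hs
    refine inv_neg_step φ ih κ K π ρ hπ hρ v σ' hσ ?_ hs
    intro i hi j hj _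
    rw [Set.encard_le_one_iff.1 hcard i j hi hj]
  | gneg α φ hg _ _ ihα ih =>
    intro κ K π ρ hπ hρ v σ' hσ hs
    rw [and2_sat] at hs ⊢
    refine ⟨ihα κ K π ρ hπ hρ v σ' hσ hs.1, ?_⟩
    refine inv_neg_step φ ih κ K π ρ hπ hρ v σ' hσ ?_ hs.2
    intro i hi j hj hij
    by_cases h : i = j
    · rw [h]
    · exact guard_compat K π α i j (hg i hi j hj h) v hs.1 hij

theorem gn_inv {a : ℕ → ℕ} (φ : Fml a) (h : GN φ) (h0 : fv φ = ∅) : BlowInv (Mod φ) := by
  intro κ _ K π ρ hπ hρ hB v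
  have hρ' := hρ
  choose σ' hσ using hρ'
  have h1 := gn_blow φ h κ K π ρ hπ hρ v σ' hσ (hB v)
  refine (sat_fv _ φ _ _ ?_).1 h1
  intro i hi
  rw [h0] at hi
  exact absurd hi (Set.notMem_empty i)

end Pool.H17.TG
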