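import Pool.Agent.H17.TG.Twin
import Pool.Agent.H17.TG.InfB
import Pool.Agent.H17.TG.FinT
import Pool.Agent.H17.TW.LeD
import Pool.Agent.H17.TW.Bridge

/-!
# The strong Vaught dichotomy for classes that do not see copies
-/

set_option autoImplicit false

namespace Pool.H17.TG

open Pool.H17.TV

theorem dich_blow {a : ℕ → ℕ} (B : Set (Str a)) (hB : @MeasurableSet (Str a) (borel (Str a)) B)
    (hinv : BlowInv B) : Dich B := by
  by_cases h : ∃ M ∈ B, ∃ (κ : Type) (_ : Countable κ) (_ : Infinite κ) (K : StrOn a κ)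
      (π : ℕ → κ), Function.Surjective π ∧ blow K π = M ∧ TwinFree K
  · obtain ⟨M, hM, κ, h1, h2, K, π, h3, h4, h5⟩ := h
    exact dich_inf B hinv κ h1 h2 K h5 π h3 (by rw [h4]; exact hM)
  · refine dich_fin B hB hinv fun M hM => ?_
    obtain ⟨κ, h1, K, π, h2, h3, h4⟩ := quot_exists M
    refine ⟨κ, ?_, K, π, h2, h3⟩
    by_contra hfin
    rw [not_finite_iff_infinite] at hfin
    exact h ⟨M, hM, κ, h1, hfin, K, π, h2, h3, h4⟩

theorem gn_dich {a : ℕ → ℕ} (φ : Fml a) (h : GN φ) (h0 : fv φ = ∅) : Dich (Mod φ) :=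
  dich_blow (Mod φ) (TW.mod_borel φ ((TW.sentence_iff φ).2 h0)) (gn_inv φ h h0)

end Pool.H17.TG
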