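import Pool.Agent.H17.TG.Defs

/-!
# The quotient by the twin relation
-/

set_option autoImplicit false

namespace Pool.H17.TG

open Pool.H17.TV

theorem twin_blow_iff {a : ℕ → ℕ} {κ : Type} (K : StrOn a κ) (π : ℕ → κ) (n : ℕ)
    (t : Fin (a n) → ℕ) : blow K π n t = true ↔
      (K n (fun i => π (t i)) = true ∧ ∀ i j, π (t i) = π (t j) → t i = t j) := by
  classical
  unfold blow
  simp only [decide_eq_true_iff]

theorem twin_apply {a : ℕ → ℕ} {κ : Type} [DecidableEq κ] {K : StrOn a κ} {u w : κ}
    (h : Twin K u w) (n : ℕ) (t : Fin (a n) → κ) :
    K n (fun i => Equiv.swap u w (t i)) = K n t := by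
  have e : (inferInstance : DecidableEq κ) = fun a b => Classical.propDecidable (a = b) :=
    Subsingleton.elim _ _
  have h2 := h.2 n t
  rw [← e] at h2
  exact h2

theorem twin_mk {a : ℕ → ℕ} {κ : Type} [DecidableEq κ] {K : StrOn a κ} {u w : κ}
    (h : ∀ n t, K n t = true → ∀ i j, t i = u → t j = w → False)
    (h' : ∀ n t, K n (fun i => Equiv.swap u w (t i)) = K n t) : Twin K u w := by
  refine ⟨h, fun n t => ?_⟩
  have e : (inferInstance : DecidableEq κ) = fun a b => Classical.propDecidable (a = b) :=
    Subsingleton.elim _ _
  have h2 := h' n t
  rw [← e]
  exact h2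

theorem twin_symm {a : ℕ → ℕ} {κ : Type} (K : StrOn a κ) (u w : κ) (h : Twin K u w) :
    Twin K w u := by
  classical
  refine ⟨fun n t ht i j hi hj => h.1 n t ht j i hj hi, fun n t => ?_⟩
  have h2 := h.2 n t
  rw [Equiv.swap_comm] at h2
  exact h2

/-- PROOF. `swap u z = swap u w * swap w z * swap u w` gives the second part. If `u` and `z` occur
together in a true tuple `t`, then `w` does not occur in `t` (`Twin K u w`), and `swap u w ∘ t` is a
true tuple containing `w` and `z`, contradicting `Twin K w z`. -/
theorem twin_trans {a : ℕ → ℕ} {κ : Type} (K : StrOn a κ) (u w z : κ) (huw : u ≠ w) (hwz : w ≠ z)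
    (huz : u ≠ z) (h : Twin K u w) (h' : Twin K w z) : Twin K u z := by
  classical
  refine ⟨fun n t ht i j hi hj => ?_, fun n t => ?_⟩
  · refine h'.1 n _ ((h.2 n t).trans ht) i j ?_ ?_
    · simp only [hi, Equiv.swap_apply_left]
    · simp only [hj]
      exact Equiv.swap_apply_of_ne_of_ne huz.symm hwz.symm
  · have hx : ∀ x, Equiv.swap u z x = Equiv.swap u w (Equiv.swap w z (Equiv.swap u w x)) := by
      intro x
      by_cases h1 : x = u
      · subst h1
        rw [Equiv.swap_apply_left, Equiv.swap_apply_left, Equiv.swap_apply_left,
          Equiv.swap_apply_of_ne_of_ne huz.symm hwz.symm]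
      · by_cases h2 : x = w
        · subst h2
          rw [Equiv.swap_apply_of_ne_of_ne h1 hwz, Equiv.swap_apply_right,
            Equiv.swap_apply_of_ne_of_ne huw huz, Equiv.swap_apply_left]
        · by_cases h3 : x = z
          · subst h3
            rw [Equiv.swap_apply_right, Equiv.swap_apply_of_ne_of_ne h1 h2,
              Equiv.swap_apply_right, Equiv.swap_apply_right]
          · rw [Equiv.swap_apply_of_ne_of_ne h1 h3, Equiv.swap_apply_of_ne_of_ne h1 h2,
              Equiv.swap_apply_of_ne_of_ne h2 h3, Equiv.swap_apply_of_ne_of_ne h1 h2]
    calc K n (fun i => Equiv.swap u z (t i))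
        = K n (fun i => Equiv.swap u w (Equiv.swap w z (Equiv.swap u w (t i)))) := by
          congr 1; funext i; exact hx (t i)
      _ = K n (fun i => Equiv.swap w z (Equiv.swap u w (t i))) :=
          h.2 n (fun i => Equiv.swap w z (Equiv.swap u w (t i)))
      _ = K n (fun i => Equiv.swap u w (t i)) := h'.2 n (fun i => Equiv.swap u w (t i))
      _ = K n t := h.2 n t

/-- Let `rep u` be a twin of `u` or equal to `u`, for every `u`, with `rep u = rep w` for twins. Then
tuples without two different twins can be replaced by their representatives. PROOF. Replace the
entries one value after the other: induction on the number of entries' values `u` with `rep u ≠ u`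
(the finset of values of `t`); for such a value `u` the element `rep u` is not an entry of `t` (it
would be a twin of `u`), so the tuple with `u` replaced by `rep u` is `swap u (rep u) ∘ t`. Strong
induction on the cardinality of `{u ∈ image of t | rep u ≠ u}`. -/
theorem rep_replace {a : ℕ → ℕ} {κ : Type} (K : StrOn a κ) (rep : κ → κ)
    (h1 : ∀ u, rep u = u ∨ Twin K u (rep u)) (h2 : ∀ u w, u ≠ w → Twin K u w → rep u = rep w)
    (n : ℕ) (t : Fin (a n) → κ) (ht : ∀ i j, t i ≠ t j → ¬ Twin K (t i) (t j)) :
    K n (fun i => rep (t i)) = K n t := by
  classical
  have key : ∀ (m : ℕ) (t : Fin (a n) → κ), (∀ i j, t i ≠ t j → ¬ Twin K (t i) (t j)) →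
      ((Finset.univ.image t).filter (fun u => rep u ≠ u)).card ≤ m →
      K n (fun i => rep (t i)) = K n t := by
    intro m
    induction m with
    | zero =>
      intro t ht hm
      have h0 : ∀ i, rep (t i) = t i := by
        intro i
        by_contra hne
        have hmem : t i ∈ (Finset.univ.image t).filter (fun u => rep u ≠ u) := by
          simp [hne]
        rw [Nat.le_zero, Finset.card_eq_zero] at hm
        rw [hm] at hmem
        exact absurd hmem (Finset.notMem_empty _)
      congr 1
      funext i
      exact h0 i
    | succ m ih =>
      intro t ht hm
      by_cases hex : ∃ i, rep (t i) ≠ t i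
      · obtain ⟨i0, hi0⟩ := hex
        set u := t i0 with hu
        have htw : Twin K u (rep u) := (h1 u).resolve_left hi0
        have hnot : ∀ j, t j ≠ rep u := by
          intro j hj
          refine ht i0 j ?_ ?_
          · rw [hj, ← hu]; exact fun h => hi0 h.symm
          · rw [hj, ← hu]; exact htw
        have hrr : rep (rep u) = rep u := (h2 u (rep u) (Ne.symm hi0) htw).symm
        set t' : Fin (a n) → κ := fun i => Equiv.swap u (rep u) (t i) with ht'
        have ht'u : ∀ i, t i = u → t' i = rep u := by
          intro i hi
          simp only [ht', hi, Equiv.swap_apply_left]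
        have ht'n : ∀ i, t i ≠ u → t' i = t i := by
          intro i hi
          exact Equiv.swap_apply_of_ne_of_ne hi (hnot i)
        have hKt : K n t' = K n t := htw.2 n t
        have hrep : ∀ i, rep (t' i) = rep (t i) := by
          intro i
          by_cases hi : t i = u
          · rw [ht'u i hi, hrr, hi]
          · rw [ht'n i hi]
        have hprop : ∀ i j, t' i ≠ t' j → ¬ Twin K (t' i) (t' j) := by
          intro i j hij hT
          by_cases hi : t i = u
          · by_cases hj : t j = u
            · exact hij (by rw [ht'u i hi, ht'u j hj])
            · rw [ht'u i hi, ht'n j hj] at hT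
              refine ht i j (by rw [hi]; exact Ne.symm hj) ?_
              rw [hi]
              exact twin_trans K u (rep u) (t j) (Ne.symm hi0) (Ne.symm (hnot j)) (Ne.symm hj)
                htw hT
          · by_cases hj : t j = u
            · rw [ht'n i hi, ht'u j hj] at hT
              refine ht j i (by rw [hj]; exact Ne.symm hi) ?_
              rw [hj]
              exact twin_trans K u (rep u) (t i) (Ne.symm hi0) (Ne.symm (hnot i)) (Ne.symm hi)
                htw (twin_symm K _ _ hT)
            · rw [ht'n i hi, ht'n j hj] at hT hij
              exact ht i j hij hT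
        have hsub : (Finset.univ.image t').filter (fun u => rep u ≠ u) ⊆
            ((Finset.univ.image t).filter (fun u => rep u ≠ u)).erase u := by
          intro x hx
          rw [Finset.mem_filter, Finset.mem_image] at hx
          obtain ⟨⟨i, -, hi⟩, hx2⟩ := hx
          by_cases hiu : t i = u
          · rw [ht'u i hiu] at hi
            rw [← hi] at hx2
            exact absurd hrr hx2
          · rw [ht'n i hiu] at hi
            rw [Finset.mem_erase, Finset.mem_filter, Finset.mem_image]
            exact ⟨by rw [← hi]; exact hiu, ⟨i, Finset.mem_univ i, hi⟩, hx2⟩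
        have hmemu : u ∈ (Finset.univ.image t).filter (fun u => rep u ≠ u) := by
          rw [Finset.mem_filter, Finset.mem_image]
          exact ⟨⟨i0, Finset.mem_univ i0, rfl⟩, hi0⟩
        have hcard : ((Finset.univ.image t').filter (fun u => rep u ≠ u)).card ≤ m := by
          have h3 := Finset.card_le_card hsub
          have h4 := Finset.card_erase_of_mem hmemu
          omega
        have hih := ih t' hprop hcard
        calc K n (fun i => rep (t i)) = K n (fun i => rep (t' i)) := by
              congr 1; funext i; exact (hrep i).symm
          _ = K n t' := hih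
          _ = K n t := hKt
      · push Not at hex
        congr 1
        funext i
        exact hex i
  exact key _ t ht le_rfl

/-- the equivalence relation: equal or twins -/
def twinSetoid {a : ℕ → ℕ} (M : Str a) : Setoid ℕ where
  r u w := u = w ∨ Twin M u w
  iseqv :=
    { refl := fun _ => Or.inl rfl
      symm := fun {x y} h => h.elim (fun h => Or.inl h.symm) (fun h => Or.inr (twin_symm M x y h))
      trans := fun {x y z} h h' => by
        by_cases hxz : x = z
        · exact Or.inl hxz
        · rcases h with h | h
          · subst h; exact h'
          · rcases h' with h' | h'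
            · subst h'; exact Or.inr h
            · by_cases hxy : x = y
              · subst hxy; exact Or.inr h'
              · by_cases hyz : y = z
                · subst hyz; exact Or.inr h
                · exact Or.inr (twin_trans M x y z hxy hyz hxz h h') }

/-- PROOF. `κ` is the quotient of `ℕ` by the equivalence relation `u = w ∨ Twin M u w`, `π` the
quotient map, `K n s = M n (out ∘ s)`. `blow K π = M`: a true tuple of `M` has no two different twins
among its entries; for tuples without two different twins use `rep_replace`. `K` is twin-free: suppose
the classes of `x, y` (different classes) are twins in `K`; show that `x, y` are twins in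
`M = blow K π`. No true tuple of `M` meets both classes. For the exchange let `t` be a tuple and
`t' = swap x y ∘ t`. If `t` has two different entries in one class, or entries in both classes, then
both values are `false` (for `t'`: its entries again meet both classes or contain two different
elements of one class; check the cases `x ∈ t`, `y ∈ t`). Otherwise `π ∘ t'` is `π ∘ t` or
`swap (π x) (π y) ∘ π ∘ t`, and compatibility is the same for `t` and `t'`. -/
theorem quot_exists {a : ℕ → ℕ} (M : Str a) : ∃ (κ : Type) (_ : Countable κ) (K : StrOn a κ)
    (π : ℕ → κ), Function.Surjective π ∧ blow K π = M ∧ TwinFree K := by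
  classical
  let S := twinSetoid M
  let π : ℕ → Quotient S := fun x => Quotient.mk S x
  let rep : ℕ → ℕ := fun x => (π x).out
  let K : StrOn a (Quotient S) := fun n s => M n (fun i => (s i).out)
  have hπout : ∀ u : Quotient S, π u.out = u := fun u => Quotient.out_eq u
  have hrel : ∀ x y, π x = π y ↔ (x = y ∨ Twin M x y) := fun x y =>
    ⟨fun h => Quotient.exact h, fun h => Quotient.sound h⟩
  have h1 : ∀ u, rep u = u ∨ Twin M u (rep u) := by
    intro u
    have h : π u = π (rep u) := (hπout (π u)).symm
    rcases (hrel _ _).1 h with h | h
    · exact Or.inl h.symm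
    · exact Or.inr h
  have h2 : ∀ u w, u ≠ w → Twin M u w → rep u = rep w := by
    intro u w _ h
    have : π u = π w := (hrel _ _).2 (Or.inr h)
    simp only [rep, this]
  have hcompat : ∀ n (t : Fin (a n) → ℕ), M n t = true → ∀ i j, π (t i) = π (t j) →
      t i = t j := by
    intro n t ht i j hij
    rcases (hrel _ _).1 hij with h | h
    · exact h
    · exact (h.1 n t ht i j rfl rfl).elim
  have hK : ∀ n (t : Fin (a n) → ℕ), (∀ i j, π (t i) = π (t j) → t i = t j) →
      K n (fun i => π (t i)) = M n t := by
    intro n t ht
    refine rep_replace M rep h1 h2 n t fun i j hij hT => ?_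
    exact hij (ht i j ((hrel _ _).2 (Or.inr hT)))
  refine ⟨Quotient S, inferInstance, K, π, Quotient.mk_surjective, ?_, ?_⟩
  · funext n t
    rw [Bool.eq_iff_iff, twin_blow_iff]
    refine ⟨fun h => ?_, fun h => ⟨?_, hcompat n t h⟩⟩
    · rw [← hK n t h.2]
      exact h.1
    · rw [hK n t (hcompat n t h)]
      exact h
  · intro u w huw hT
    set x := u.out with hx
    set y := w.out with hy
    have hπx : π x = u := hπout u
    have hπy : π y = w := hπout w
    -- the exchange for one of the classes
    have claim : ∀ u w : Quotient S, u ≠ w → Twin K u w → ∀ n (t : Fin (a n) → ℕ),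
        M n t = true → (∃ i, π (t i) = u) →
        M n (fun i => Equiv.swap u.out w.out (t i)) = true := by
      intro u w huw hT n t ht ⟨i0, hi0⟩
      have hπx : π u.out = u := hπout u
      have hπy : π w.out = w := hπout w
      have hKt : K n (fun i => π (t i)) = true := by rw [hK n t (hcompat n t ht)]; exact ht
      have hnow : ∀ j, π (t j) ≠ w := fun j hj =>
        hT.1 n (fun i => π (t i)) hKt i0 j hi0 hj
      have hnoy : ∀ j, t j ≠ w.out := fun j hj => hnow j (by rw [hj]; exact hπy)
      by_cases hx' : t i0 = u.out
      · set t' : Fin (a n) → ℕ := fun i => Equiv.swap u.out w.out (t i) with ht'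
        have hπt' : (fun i => π (t' i)) = fun i => Equiv.swap u w (π (t i)) := by
          funext i
          by_cases hi : t i = u.out
          · simp only [ht', hi, Equiv.swap_apply_left]
            rw [hπx, hπy, Equiv.swap_apply_left]
          · have hne : π (t i) ≠ u := by
              intro h
              apply hi
              rw [← hx']
              exact hcompat n t ht i i0 (by rw [h, hi0])
            rw [Equiv.swap_apply_of_ne_of_ne hne (hnow i)]
            simp only [ht']
            rw [Equiv.swap_apply_of_ne_of_ne hi (hnoy i)]
        have hKt' : K n (fun i => π (t' i)) = true := by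
          rw [hπt']
          exact (twin_apply hT n (fun i => π (t i))).trans hKt
        have hct' : ∀ i j, π (t' i) = π (t' j) → t' i = t' j := by
          intro i j hij
          have h3 : Equiv.swap u w (π (t i)) = Equiv.swap u w (π (t j)) := by
            have e1 := congrFun hπt' i
            have e2 := congrFun hπt' j
            exact e1.symm.trans (hij.trans e2)
          have h4 : t i = t j := hcompat n t ht i j ((Equiv.swap u w).injective h3)
          exact congrArg (Equiv.swap u.out w.out) h4
        rw [← hK n t' hct']
        exact hKt'
      · have hnox : ∀ j, t j ≠ u.out := by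
          intro j hj
          apply hx'
          rw [← hj]
          exact hcompat n t ht i0 j (by rw [hj, hi0]; exact hπx.symm)
        have : (fun i => Equiv.swap u.out w.out (t i)) = t := by
          funext i
          exact Equiv.swap_apply_of_ne_of_ne (hnox i) (hnoy i)
        rw [this]
        exact ht
    have claim2 : ∀ n (t : Fin (a n) → ℕ), M n t = true →
        M n (fun i => Equiv.swap x y (t i)) = true := by
      intro n t ht
      by_cases h3 : ∃ i, π (t i) = u
      · exact claim u w huw hT n t ht h3
      · by_cases h4 : ∃ i, π (t i) = w
        · have h5 := claim w u (Ne.symm huw) (twin_symm K u w hT) n t ht h4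
          rw [Equiv.swap_comm]
          exact h5
        · push Not at h3 h4
          have : (fun i => Equiv.swap x y (t i)) = t := by
            funext i
            refine Equiv.swap_apply_of_ne_of_ne ?_ ?_
            · intro h; exact h3 i (by rw [h]; exact hπx)
            · intro h; exact h4 i (by rw [h]; exact hπy)
          rw [this]
          exact ht
    have hxy : Twin M x y := by
      refine twin_mk (fun n t ht i j hi hj => ?_) (fun n t => ?_)
      · refine hT.1 n (fun i => π (t i)) ?_ i j ?_ ?_
        · rw [hK n t (hcompat n t ht)]; exact ht
        · rw [hi]; exact hπx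
        · rw [hj]; exact hπy
      · by_cases ht : M n t = true
        · rw [ht]
          exact claim2 n t ht
        · have hf : M n t = false := by rwa [Bool.not_eq_true] at ht
          rw [hf]
          by_contra hne
          rw [Bool.not_eq_false] at hne
          have h3 := claim2 n _ hne
          apply ht
          rw [← h3]
          congr 1
          funext i
          exact (Equiv.swap_apply_self x y (t i)).symm
    have h3 : π x = π y := (hrel x y).2 (Or.inr hxy)
    exact huw (by rw [← hπx, ← hπy, h3])

end Pool.H17.TG
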